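import Pool.Agent.helper83.SC.Stmt

/-!
Module UD of the SC project: subgradient images of compact sets are compact, and bounded uniformly.
-/

open scoped Pointwise ContDiff
open MeasureTheory Set Filter Topology

namespace Pool.Agent.helper83.SC

theorem UD_continuous {m : ℕ} {f : E m → ℝ} (hf : CV f) : Continuous f := by
  rw [← continuousOn_univ]
  exact ConvexOn.continuousOn isOpen_univ hf

theorem UD_bdd {m : ℕ} {f : E m → ℝ} (hf : CV f) (R : ℝ) :
    ∃ C : ℝ, 0 ≤ C ∧ ∀ y, ‖y‖ ≤ R → |f y| ≤ C := by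
  obtain ⟨C, hC⟩ := (isCompact_closedBall (0 : E m) R).exists_bound_of_continuousOn
    (UD_continuous hf).continuousOn
  refine ⟨max C 0, le_max_right _ _, fun y hy => ?_⟩
  exact (hC y (by simpa using hy)).trans (le_max_left _ _)

theorem subgr_bdd_of : subgr_bdd_stmt := by
  intro m f g hf hg R
  obtain ⟨C₁, h1, hC₁⟩ := UD_bdd hf (R + 1)
  obtain ⟨C₂, h2, hC₂⟩ := UD_bdd hg (R + 1)
  refine ⟨2 * (C₁ + C₂), by positivity, ?_⟩
  intro t ht0 ht1 p y hy hp
  rcases eq_or_ne p 0 with rfl | hp0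
  · rw [norm_zero]; positivity
  have hn : 0 < ‖p‖ := norm_pos_iff.mpr hp0
  have h3 := hp (y + ‖p‖⁻¹ • p)
  simp only at h3
  rw [inner_add_right, inner_smul_right, real_inner_self_eq_norm_sq] at h3
  have h4 : ‖p‖⁻¹ * ‖p‖ ^ 2 = ‖p‖ := by field_simp
  rw [h4] at h3
  have h5 : ‖y + ‖p‖⁻¹ • p‖ ≤ R + 1 := by
    refine (norm_add_le _ _).trans ?_
    rw [norm_smul, norm_inv, norm_norm, inv_mul_cancel₀ hn.ne']
    linarith
  have a1 := abs_le.mp (hC₁ y (by linarith))
  have a2 := abs_le.mp (hC₁ _ h5)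
  have a3 := abs_le.mp (hC₂ y (by linarith))
  have a4 := abs_le.mp (hC₂ _ h5)
  have b1 : t * g (y + ‖p‖⁻¹ • p) ≤ C₂ := by nlinarith [a4.1, a4.2]
  have b2 : -C₂ ≤ t * g y := by nlinarith [a3.1, a3.2]
  linarith [a1.1, a1.2, a2.1, a2.2]

theorem subgr_compact_of : subgr_compact_stmt := by
  intro m h hh Z hZ
  obtain ⟨R, hR⟩ := hZ.isBounded.exists_norm_le
  obtain ⟨C, hC0, hC⟩ := subgr_bdd_of hh hh R
  have hcont := UD_continuous hh
  have hcl : IsClosed {x : E m × E m | ∀ z, h x.1 - inner ℝ x.2 x.1 ≤ h z - inner ℝ x.2 z} := by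
    simp only [ofPred_forall]
    refine isClosed_iInter fun z => isClosed_le ?_ ?_
    · exact (hcont.comp continuous_fst).sub (continuous_snd.inner continuous_fst)
    · exact continuous_const.sub (continuous_snd.inner continuous_const)
  have hcomp : IsCompact ((Z ×ˢ Metric.closedBall (0 : E m) C) ∩
      {x : E m × E m | ∀ z, h x.1 - inner ℝ x.2 x.1 ≤ h z - inner ℝ x.2 z}) :=
    (hZ.prod (isCompact_closedBall _ _)).inter_right hcl
  have himg := hcomp.image continuous_snd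
  convert himg using 1
  ext p
  constructor
  · rintro ⟨y, hy, hp⟩
    refine ⟨(y, p), ⟨⟨hy, ?_⟩, hp⟩, rfl⟩
    have := hC 0 le_rfl zero_le_one p y (hR y hy) (by
      simpa using hp)
    simpa using this
  · rintro ⟨⟨y, q⟩, ⟨⟨hy, -⟩, hp⟩, rfl⟩
    exact ⟨y, hy, hp⟩

end Pool.Agent.helper83.SC
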